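import Pool.Agent.U375.DS.Sum

/-!
# The two classes are inherited by ordinal summands
-/

set_option autoImplicit false

namespace Pool.Agent.U375.DS

open Set

lemma ordConnected_lower {P : Type} [PartialOrder P] {L : Set P} (h : ∀ a ∈ L, ∀ b ∉ L, a < b) :
    L.OrdConnected := by
  refine ⟨fun a _ b hb c hc => ?_⟩
  by_contra hcL
  exact absurd hc.2 (not_le_of_gt (h b hb c hcL))

lemma ordConnected_upper {P : Type} [PartialOrder P] {L : Set P} (h : ∀ a ∈ L, ∀ b ∉ L, a < b) :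
    (Lᶜ).OrdConnected := by
  refine ⟨fun a ha b _ c hc hcL => ?_⟩
  exact absurd hc.1 (not_le_of_gt (h c hcL a ha))

lemma OrdSum.iso {A B : Type} [PartialOrder A] [PartialOrder B] (e : A ≃o B) (h : OrdSum A) :
    OrdSum B := by
  obtain ⟨L, ⟨l, hl⟩, ⟨u, hu⟩, hL⟩ := h
  refine ⟨e.symm ⁻¹' L, ⟨e l, by simpa using hl⟩, ⟨e u, by simpa using hu⟩, fun a ha b hb => ?_⟩
  have := hL _ ha _ hb
  exact e.symm.lt_iff_lt.1 this

lemma SumIntervals.conv {P : Type} [PartialOrder P] [Finite P] {B : ℕ} (h : SumIntervals B P)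
    (S : Set P) (hS : S.OrdConnected) : SumIntervals B S := by
  rintro x z ⟨C, hC, hch, hcard⟩
  have h1 : OrdSum (Ioo (x : P) (z : P)) := by
    apply h
    refine ⟨Subtype.val '' C, ?_, ?_, ?_⟩
    · rintro _ ⟨y, hy, rfl⟩
      exact ⟨(hC hy).1, (hC hy).2⟩
    · rintro _ ⟨y, hy, rfl⟩ _ ⟨y', hy', rfl⟩ _
      exact hch.total hy hy'
    · rwa [ncard_image_of_injective _ Subtype.val_injective]
  let e : Ioo (x : P) (z : P) ≃o Ioo x z :=
    { toFun := fun y => ⟨⟨y.1, hS.out x.2 z.2 ⟨y.2.1.le, y.2.2.le⟩⟩, y.2.1, y.2.2⟩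
      invFun := fun y => ⟨y.1.1, y.2.1, y.2.2⟩
      left_inv := fun _ => rfl
      right_inv := fun _ => rfl
      map_rel_iff' := Iff.rfl }
  exact h1.iso e

lemma inherited_sumIntervals (B : ℕ) : Inherited (fun P _ => SumIntervals B P) :=
  fun _ _ _ L hL h => ⟨h.conv L (ordConnected_lower hL), h.conv Lᶜ (ordConnected_upper hL)⟩

lemma inherited_forest : Inherited (fun P _ => Forest P) :=
  fun _ _ _ L hL h => ⟨h.conv L (ordConnected_lower hL), h.conv Lᶜ (ordConnected_upper hL)⟩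

/-- the inclusion of an order-connected subset as a homomorphism of the cover graphs -/
def inclHom {P : Type} [PartialOrder P] (S : Set P) (hS : S.OrdConnected) :
    SimpleGraph.hasse S →g SimpleGraph.hasse P where
  toFun := fun x => (x : P)
  map_rel' := by
    have key : ∀ a b : S, a ⋖ b → (a : P) ⋖ (b : P) := by
      intro a b hab
      refine ⟨hab.1, fun c h1 h2 => ?_⟩
      exact hab.2 (c := ⟨c, hS.out a.2 b.2 ⟨h1.le, h2.le⟩⟩) h1 h2
    intro a b hab
    rcases SimpleGraph.hasse_adj.1 hab with h1 | h1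
    · exact SimpleGraph.hasse_adj.2 (Or.inl (key _ _ h1))
    · exact SimpleGraph.hasse_adj.2 (Or.inr (key _ _ h1))

lemma PathsSeparated.conv {P : Type} [PartialOrder P] {B : ℕ} (h : PathsSeparated B P)
    (S : Set P) (hS : S.OrdConnected) : PathsSeparated B S := by
  intro u v p hp hlen
  have hinj : Function.Injective (inclHom S hS) := Subtype.val_injective
  obtain ⟨s, h1, h2, h3⟩ := h (inclHom S hS u) (inclHom S hS v) (p.map (inclHom S hS))
    (SimpleGraph.Walk.IsPath.map hinj hp)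
    (by rw [SimpleGraph.Walk.length_map]; exact hlen)
  have h4 : ∀ q : (SimpleGraph.hasse S).Walk u v, ∃ t ∈ q.support, inclHom S hS t = s := by
    intro q
    have := h3 (q.map (inclHom S hS))
    rw [SimpleGraph.Walk.support_map, List.mem_map] at this
    exact this
  obtain ⟨t, ht, rfl⟩ := h4 p
  refine ⟨t, fun h => h1 (by rw [h]), fun h => h2 (by rw [h]), fun q => ?_⟩
  obtain ⟨t', ht', h5⟩ := h4 q
  rwa [← hinj h5]

lemma inherited_separated (B : ℕ) : Inherited (fun P _ => PathsSeparated B P) :=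
  fun _ _ _ L hL h => ⟨h.conv L (ordConnected_lower hL), h.conv Lᶜ (ordConnected_upper hL)⟩

lemma PathsSeparated.mono {P : Type} [PartialOrder P] {B B' : ℕ} (hB : B ≤ B')
    (h : PathsSeparated B P) : PathsSeparated B' P :=
  fun u v p hp hlen => h u v p hp (by omega)

lemma SumIntervals.mono {P : Type} [PartialOrder P] {B B' : ℕ} (hB : B ≤ B')
    (h : SumIntervals B P) : SumIntervals B' P :=
  fun x z ⟨C, h1, h2, h3⟩ => h x z ⟨C, h1, h2, by omega⟩

lemma bnd_mono {C C' ε : ℝ} (hε : 0 < ε) (hε2 : ε ≤ 1 / 2) (h : C ≤ C') : bnd C ε ≤ bnd C' ε := by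
  unfold bnd
  apply Real.exp_le_exp.2
  have hlog : 0 ≤ Real.log (2 / ε) := Real.log_nonneg (by
    rw [le_div_iff₀ hε]; linarith)
  gcongr

lemma bnd_width {C : ℝ} (hC : 0 < C) {w : ℕ} (hw : 1 ≤ w) : bnd C (1 / (12 * w)) ≤
    Real.exp (C * 216 * 20736 * w ^ 4 * Real.log (w + 1) ^ 3) := by
  unfold bnd
  apply Real.exp_le_exp.2
  have hw' : (1 : ℝ) ≤ w := by exact_mod_cast hw
  have h1 : Real.log (2 / (1 / (12 * (w : ℝ)))) ≤ 6 * Real.log (w + 1) := by
    have h2 : (2 : ℝ) / (1 / (12 * w)) = 24 * w := by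
      field_simp; ring
    rw [h2]
    have h3 : (24 : ℝ) * w ≤ ((w : ℝ) + 1) ^ 6 := by
      have h4 : (2 : ℝ) ^ 5 ≤ ((w : ℝ) + 1) ^ 5 := by gcongr; linarith
      calc (24 : ℝ) * w ≤ 2 ^ 5 * (w + 1) := by norm_num; linarith
        _ ≤ ((w : ℝ) + 1) ^ 5 * (w + 1) := by gcongr
        _ = ((w : ℝ) + 1) ^ 6 := by ring
    calc Real.log (24 * w) ≤ Real.log (((w : ℝ) + 1) ^ 6) := Real.log_le_log (by positivity) h3
      _ = 6 * Real.log (w + 1) := by rw [Real.log_pow]; norm_num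
  have h0 : 0 ≤ Real.log (2 / (1 / (12 * (w : ℝ)))) := Real.log_nonneg (by
    have h2 : (2 : ℝ) / (1 / (12 * w)) = 24 * w := by
      field_simp; ring
    rw [h2]; linarith)
  have h5 : C * Real.log (2 / (1 / (12 * (w : ℝ)))) ^ 3 / (1 / (12 * (w : ℝ))) ^ 4 =
      C * Real.log (2 / (1 / (12 * (w : ℝ)))) ^ 3 * (20736 * (w : ℝ) ^ 4) := by
    field_simp
    ring
  rw [h5]
  calc C * Real.log (2 / (1 / (12 * (w : ℝ)))) ^ 3 * (20736 * (w : ℝ) ^ 4)
      ≤ C * (6 * Real.log (w + 1)) ^ 3 * (20736 * (w : ℝ) ^ 4) := by gcongr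
    _ = C * 216 * 20736 * w ^ 4 * Real.log (w + 1) ^ 3 := by ring

end Pool.Agent.U375.DS
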