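import Pool.Agent.U375.DS.Order

/-!
# Posets whose cover graph is a forest, or has bounded blocks
-/

set_option autoImplicit false

namespace Pool.Agent.U375.DS

open SimpleGraph Set

/-- any two vertices of the cover graph which are joined by a path with more than `B` inner vertices
are separated by a third vertex -/
def PathsSeparated (B : ℕ) (P : Type) [PartialOrder P] : Prop :=
  ∀ (u v : P) (p : (hasse P).Walk u v), p.IsPath → B + 1 < p.length →
    ∃ s : P, s ≠ u ∧ s ≠ v ∧ ∀ q : (hasse P).Walk u v, s ∈ q.support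

/-- the cover graph is a forest -/
def Forest (P : Type) [PartialOrder P] : Prop := (hasse P).IsAcyclic

section

variable {P : Type} [PartialOrder P] [Finite P]

lemma exists_mono (x : P) : ∀ z : P, x ≤ z → ∃ p : (hasse P).Walk x z,
    p.support.Pairwise (· < ·) ∧ ∀ s ∈ p.support, x ≤ s ∧ s ≤ z := by
  induction x using WellFoundedGT.induction with
  | _ x ih =>
    intro z hxz
    rcases hxz.eq_or_lt with h | h
    · subst h
      exact ⟨Walk.nil, by simp, by simp⟩
    · obtain ⟨y, hxy, hyz⟩ := exists_covBy_le_of_lt h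
      obtain ⟨p, hp1, hp2⟩ := ih y hxy.lt z hyz
      refine ⟨Walk.cons (hasse_adj.2 (Or.inl hxy)) p, ?_, ?_⟩
      · rw [Walk.support_cons, List.pairwise_cons]
        exact ⟨fun s hs => lt_of_lt_of_le hxy.lt (hp2 s hs).1, hp1⟩
      · intro s hs
        rw [Walk.support_cons, List.mem_cons] at hs
        rcases hs with rfl | hs
        · exact ⟨le_rfl, hxz⟩
        · exact ⟨hxy.le.trans (hp2 s hs).1, (hp2 s hs).2⟩

omit [Finite P] in
lemma append_mono {x y z : P} {p : (hasse P).Walk x y} {q : (hasse P).Walk y z}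
    (hp : p.support.Pairwise (· < ·) ∧ ∀ s ∈ p.support, x ≤ s ∧ s ≤ y)
    (hq : q.support.Pairwise (· < ·) ∧ ∀ s ∈ q.support, y ≤ s ∧ s ≤ z) :
    (p.append q).support.Pairwise (· < ·) ∧ ∀ s ∈ (p.append q).support, x ≤ s ∧ s ≤ z := by
  have hxy : x ≤ y := (hp.2 _ p.start_mem_support).2
  have hyz : y ≤ z := (hq.2 _ q.start_mem_support).2
  have h1 : (y :: q.support.tail).Pairwise (· < ·) := by
    rw [Walk.cons_tail_support]; exact hq.1
  rw [List.pairwise_cons] at h1
  constructor
  · rw [Walk.support_append, List.pairwise_append]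
    exact ⟨hp.1, h1.2, fun a ha b hb => lt_of_le_of_lt (hp.2 a ha).2 (h1.1 b hb)⟩
  · intro s hs
    rw [Walk.mem_support_append_iff] at hs
    rcases hs with hs | hs
    · exact ⟨(hp.2 s hs).1, (hp.2 s hs).2.trans hyz⟩
    · exact ⟨hxy.trans (hq.2 s hs).1, (hq.2 s hs).2⟩

lemma exists_mono_through (n : ℕ) : ∀ (C : Finset P) (x z : P), C.card = n →
    IsChain (· ≤ ·) (C : Set P) → (∀ c ∈ C, x ≤ c ∧ c ≤ z) → x ≤ z →
    ∃ p : (hasse P).Walk x z, (p.support.Pairwise (· < ·) ∧ ∀ s ∈ p.support, x ≤ s ∧ s ≤ z) ∧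
      ∀ c ∈ C, c ∈ p.support := by
  classical
  induction n with
  | zero =>
    intro C x z hC _ _ hxz
    obtain ⟨p, hp⟩ := exists_mono x z hxz
    refine ⟨p, hp, fun c hc => ?_⟩
    rw [Finset.card_eq_zero.1 hC] at hc
    simp at hc
  | succ n ih =>
    intro C x z hC hch hb hxz
    have hne : C.Nonempty := by
      rw [← Finset.card_pos]; omega
    obtain ⟨c, hc⟩ := C.exists_minimal hne
    have hc' : ∀ d ∈ C, c ≤ d := fun d hd => by
      rcases hch.total (Finset.mem_coe.2 hc.1) (Finset.mem_coe.2 hd) with h | h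
      · exact h
      · exact hc.2 hd h
    obtain ⟨p, hp⟩ := exists_mono x c (hb c hc.1).1
    obtain ⟨q, hq, hq2⟩ := ih (C.erase c) c z (by rw [Finset.card_erase_of_mem hc.1]; omega)
      (hch.mono (by simp)) (fun d hd => ⟨hc' d (Finset.mem_of_mem_erase hd),
        (hb d (Finset.mem_of_mem_erase hd)).2⟩) (hb c hc.1).2
    refine ⟨p.append q, append_mono hp hq, fun d hd => ?_⟩
    rw [Walk.mem_support_append_iff]
    by_cases h : d = c
    · subst h; exact Or.inl p.end_mem_support
    · exact Or.inr (hq2 d (Finset.mem_erase.2 ⟨h, hd⟩))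

theorem sumIntervals_of_separated {B : ℕ} (hB : 1 ≤ B) (h : PathsSeparated B P) :
    SumIntervals B P := by
  classical
  rintro x z ⟨C, hC, hch, hcard⟩
  have hne : C.Nonempty := by
    rw [← ncard_pos]; omega
  have hxz : x < z := by
    obtain ⟨c, hc⟩ := hne
    exact (hC hc).1.trans (hC hc).2
  obtain ⟨p, hp, hp2⟩ := exists_mono_through C.ncard (Set.toFinite C).toFinset x z
    (by rw [Set.ncard_eq_toFinset_card C (Set.toFinite C)]) (by simpa using hch)
    (fun c hc => by
      have := hC ((Set.Finite.mem_toFinset _).1 hc)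
      exact ⟨this.1.le, this.2.le⟩) hxz.le
  have hpath : p.IsPath := Walk.IsPath.mk' (hp.1.imp (fun h => h.ne))
  have hlen : C.ncard + 2 ≤ p.length + 1 := by
    rw [← Walk.length_support]
    have h1 : insert x (insert z (Set.toFinite C).toFinset) ⊆ p.support.toFinset := by
      intro y hy
      rw [List.mem_toFinset]
      rw [Finset.mem_insert, Finset.mem_insert] at hy
      rcases hy with rfl | rfl | hy
      · exact p.start_mem_support
      · exact p.end_mem_support
      · exact hp2 y hy
    have h2 := Finset.card_le_card h1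
    rw [Finset.card_insert_of_notMem, Finset.card_insert_of_notMem] at h2
    · have h3 := List.toFinset_card_le p.support
      rw [← Set.ncard_eq_toFinset_card C (Set.toFinite C)] at h2
      omega
    · rw [Set.Finite.mem_toFinset]
      exact fun h => lt_irrefl _ (hC h).2
    · rw [Finset.mem_insert, Set.Finite.mem_toFinset]
      rintro (h | h)
      · exact hxz.ne h
      · exact lt_irrefl _ (hC h).1
  obtain ⟨s, hsx, hsz, hs⟩ := h x z p hpath (by omega)
  have hsI : s ∈ Ioo x z := by
    have := hp.2 s (hs p)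
    exact ⟨lt_of_le_of_ne this.1 (Ne.symm hsx), lt_of_le_of_ne this.2 hsz⟩
  have hcomp : ∀ y : Ioo x z, (y : P) ≤ s ∨ s ≤ y := by
    rintro ⟨y, hy⟩
    obtain ⟨p1, h1⟩ := exists_mono x y hy.1.le
    obtain ⟨p2, h2⟩ := exists_mono y z hy.2.le
    have := hs (p1.append p2)
    rw [Walk.mem_support_append_iff] at this
    rcases this with h3 | h3
    · exact Or.inr (h1.2 s h3).2
    · exact Or.inl (h2.2 s h3).1
  by_cases hall : ∀ y : Ioo x z, (y : P) ≤ s
  · -- `s` is the largest element
    obtain ⟨c, hc, hcs⟩ : ∃ c ∈ C, c ≠ s := by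
      by_contra hcon
      push Not at hcon
      have h1 : C ⊆ {s} := fun c hc => hcon c hc
      have h2 := ncard_le_ncard h1
      rw [ncard_singleton] at h2
      omega
    refine ⟨{y | (y : P) < s}, ⟨⟨c, hC hc⟩, ?_⟩, ⟨⟨s, hsI⟩, ?_⟩, ?_⟩
    · exact lt_of_le_of_ne (hall ⟨c, hC hc⟩) hcs
    · simp
    · intro a ha b hb
      have h1 : (b : P) = s := by
        by_contra h2
        exact hb (lt_of_le_of_ne (hall b) h2)
      show (a : P) < b
      rw [h1]; exact ha
  · push Not at hall
    obtain ⟨y, hy⟩ := hall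
    refine ⟨{y | (y : P) ≤ s}, ⟨⟨s, hsI⟩, le_rfl⟩, ⟨y, hy⟩, ?_⟩
    intro a ha b hb
    have h1 : s < (b : P) := by
      rcases hcomp b with h2 | h2
      · exact absurd h2 hb
      · exact lt_of_le_of_ne h2 (fun h3 => hb (h3 ▸ le_rfl))
    show (a : P) < b
    exact lt_of_le_of_lt ha h1

end

lemma separated_of_forest {P : Type} [PartialOrder P] (h : Forest P) : PathsSeparated 1 P := by
  classical
  intro u v p hp hlen
  refine ⟨p.getVert 1, ?_, ?_, fun q => ?_⟩
  · intro h1
    have := hp.getVert_injOn (show (1 : ℕ) ∈ {i | i ≤ p.length} by simp; omega)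
      (show (0 : ℕ) ∈ {i | i ≤ p.length} by simp) (by rw [h1, Walk.getVert_zero])
    omega
  · intro h1
    have := hp.getVert_injOn (show (1 : ℕ) ∈ {i | i ≤ p.length} by simp; omega)
      (show p.length ∈ {i | i ≤ p.length} by simp) (by rw [h1, Walk.getVert_length])
    omega
  · have h1 := (h.subsingleton_path u v).elim ⟨p, hp⟩ q.toPath
    have h2 : p = q.bypass := congrArg Subtype.val h1
    have h3 : p.getVert 1 ∈ q.bypass.support := by
      rw [← h2]; exact p.getVert_mem_support 1
    exact q.support_bypass_subset_support h3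

theorem sumIntervals_of_forest {P : Type} [PartialOrder P] [Finite P] (h : Forest P) :
    SumIntervals 1 P := sumIntervals_of_separated le_rfl (separated_of_forest h)

/-- the cover graph of a rooted forest is a forest -/
lemma forest_of_tree {P : Type} [PartialOrder P] [Finite P]
    (h : ∀ x y z : P, x ≤ y → x ≤ z → y ≤ z ∨ z ≤ y) : Forest P := by
  classical
  intro v c hc
  obtain ⟨m, hm⟩ := c.support.toFinset.exists_minimal ⟨v, by simp⟩
  have hmc : m ∈ c.support := List.mem_toFinset.1 hm.1
  set c' := c.rotate m hmc with hc'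
  have hcyc : c'.IsCycle := hc.rotate hmc
  have hmem : ∀ x ∈ c'.support, x ∈ c.support := fun x hx => by
    rw [hc'] at hx
    exact (Walk.mem_support_rotate_iff _ _ hmc).1 hx
  have h1 := c'.adj_snd hcyc.not_nil
  have h2 := c'.adj_penultimate hcyc.not_nil
  have h3 : m ⋖ c'.snd := by
    rcases hasse_adj.1 h1 with h4 | h4
    · exact h4
    · exact absurd (hm.2 (List.mem_toFinset.2 (hmem _ (c'.getVert_mem_support 1))) h4.le)
        (not_le_of_gt h4.lt)
  have h5 : m ⋖ c'.penultimate := by
    rcases hasse_adj.1 h2 with h4 | h4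
    · exact absurd (hm.2 (List.mem_toFinset.2 (hmem _ (c'.getVert_mem_support _))) h4.le)
        (not_le_of_gt h4.lt)
    · exact h4
  apply hcyc.snd_ne_penultimate
  rcases h m _ _ h3.le h5.le with h6 | h6
  · exact h6.eq_of_not_lt (fun h7 => h5.2 h3.lt h7)
  · exact (h6.eq_of_not_lt (fun h7 => h3.2 h5.lt h7)).symm

/-- an ordinal summand of a poset whose cover graph is a forest has this property too -/
lemma Forest.conv {P : Type} [PartialOrder P] (h : Forest P) (S : Set P) (hS : S.OrdConnected) :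
    Forest S := by
  refine IsAcyclic.comap (G' := hasse P) ⟨fun x => (x : P), ?_⟩ Subtype.val_injective h
  intro a b hab
  have key : ∀ a b : S, a ⋖ b → (a : P) ⋖ (b : P) := by
    intro a b hab
    refine ⟨hab.1, fun c h1 h2 => ?_⟩
    exact hab.2 (c := ⟨c, hS.out a.2 b.2 ⟨h1.le, h2.le⟩⟩) h1 h2
  rcases hasse_adj.1 hab with h1 | h1
  · exact hasse_adj.2 (Or.inl (key _ _ h1))
  · exact hasse_adj.2 (Or.inr (key _ _ h1))

end Pool.Agent.U375.DS
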