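import Mathlib

/-!
# Irreducible thin posets all of whose long open intervals are ordinal sums are small
-/

set_option autoImplicit false

namespace Pool.Agent.U375.DS

open Set

/-- `P` is the ordinal sum of two nonempty posets -/
def OrdSum (P : Type) [PartialOrder P] : Prop :=
  ∃ L : Set P, L.Nonempty ∧ Lᶜ.Nonempty ∧ ∀ a ∈ L, ∀ b ∉ L, a < b

/-- every open interval which contains a chain with more than `B` elements is the ordinal sum of
two nonempty posets -/
def SumIntervals (B : ℕ) (P : Type) [PartialOrder P] : Prop :=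
  ∀ x z : P, (∃ C : Set P, C ⊆ Set.Ioo x z ∧ IsChain (· ≤ ·) C ∧ B < C.ncard) →
    OrdSum (Set.Ioo x z)

/-- every element is incomparable to fewer than `K` elements -/
def Thin (K : ℕ) (P : Type) [PartialOrder P] : Prop :=
  ∀ x : P, {y : P | ¬ x ≤ y ∧ ¬ y ≤ x}.ncard < K

variable {P : Type} [PartialOrder P] [Finite P]

lemma ncard_le_of_chain {K m : ℕ} (hT : Thin K P) (S : Set P)
    (hS : ∀ C ⊆ S, IsChain (· ≤ ·) C → C.ncard ≤ m) : S.ncard ≤ K * m := by
  classical
  obtain ⟨C, hC, hmax⟩ := Set.exists_max_image {C : Set P | C ⊆ S ∧ IsChain (· ≤ ·) C} Set.ncard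
    (Set.toFinite _) ⟨∅, empty_subset _, IsChain.empty⟩
  obtain ⟨hCS, hch⟩ := hC
  have hsub : S ⊆ ⋃ c ∈ C, insert c {y : P | ¬ c ≤ y ∧ ¬ y ≤ c} := by
    intro y hy
    by_contra hcon
    have h1 : ∀ c ∈ C, y ≠ c ∧ (c ≤ y ∨ y ≤ c) := by
      intro c hc
      by_contra h2
      apply hcon
      simp only [mem_iUnion]
      refine ⟨c, hc, ?_⟩
      by_cases h3 : y = c
      · exact Or.inl h3
      · right
        simp only [mem_ofPred_eq]
        by_contra h4
        exact h2 ⟨h3, by tauto⟩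
    have hyC : y ∉ C := fun h => (h1 y h).1 rfl
    have h2 : IsChain (· ≤ ·) (insert y C) := hch.insert (fun b hb _ => (h1 b hb).2.symm)
    have h3 := hmax (insert y C) ⟨insert_subset hy hCS, h2⟩
    rw [ncard_insert_of_notMem hyC] at h3
    omega
  have h1 : S.ncard ≤ (⋃ c ∈ C, insert c {y : P | ¬ c ≤ y ∧ ¬ y ≤ c}).ncard :=
    ncard_le_ncard hsub
  have h2 : (⋃ c ∈ C, insert c {y : P | ¬ c ≤ y ∧ ¬ y ≤ c}).ncard ≤ C.ncard * K := by
    have hfin : C.Finite := Set.toFinite C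
    have : (⋃ c ∈ C, insert c {y : P | ¬ c ≤ y ∧ ¬ y ≤ c}) =
        ⋃ c ∈ hfin.toFinset, insert c {y : P | ¬ c ≤ y ∧ ¬ y ≤ c} := by simp
    rw [this, ncard_eq_toFinset_card C hfin]
    have key : ∀ s : Finset P, (⋃ c ∈ s, insert c {y : P | ¬ c ≤ y ∧ ¬ y ≤ c}).ncard ≤
        s.card * K := by
      intro s
      induction s using Finset.induction_on with
      | empty => simp
      | insert a s ha ih =>
        rw [Finset.set_biUnion_insert, Finset.card_insert_of_notMem ha, add_mul, one_mul, add_comm]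
        refine (ncard_union_le _ _).trans (add_le_add ?_ ih)
        have := hT a
        refine (ncard_insert_le _ _).trans ?_
        omega
    exact key _
  calc S.ncard ≤ C.ncard * K := h1.trans h2
    _ ≤ m * K := Nat.mul_le_mul_right _ (hS C hCS hch)
    _ = K * m := mul_comm _ _

/-- lower parts of the ordinal decompositions of `I` -/
def Cut (I A : Set P) : Prop := A ⊆ I ∧ ∀ a ∈ A, ∀ b ∈ I \ A, a < b

omit [Finite P] in
lemma Cut.nested {I A A' : Set P} (h : Cut I A) (h' : Cut I A') : A ⊆ A' ∨ A' ⊆ A := by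
  by_contra hcon
  rw [not_or] at hcon
  obtain ⟨h1, h2⟩ := hcon
  obtain ⟨a, ha, ha'⟩ := Set.not_subset.1 h1
  obtain ⟨b, hb, hb'⟩ := Set.not_subset.1 h2
  exact lt_asymm (h.2 a ha b ⟨h'.1 hb, hb'⟩) (h'.2 b hb a ⟨h.1 ha, ha'⟩)

/-- the main lemma for an interval -/
lemma interval_small {K B : ℕ} (hK : 1 ≤ K) (hT : Thin K P) (hB : SumIntervals B P)
    (hirr : ¬ OrdSum P) (x z : P) (hxz : x < z) : (Ioo x z).ncard < 2 * K + K * B := by
  classical
  by_contra hcon
  rw [not_lt] at hcon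
  set I := Ioo x z with hI
  obtain ⟨A, ⟨hA, hAK⟩, hAmax⟩ := Set.exists_max_image {A : Set P | Cut I A ∧ A.ncard < K} Set.ncard
    (Set.toFinite _) ⟨∅, ⟨empty_subset _, fun a ha => absurd ha (notMem_empty a)⟩, by rw [ncard_empty]; omega⟩
  obtain ⟨A', ⟨hA', hAK'⟩, hAmin⟩ := Set.exists_min_image {A : Set P | Cut I A ∧ K ≤ A.ncard}
    Set.ncard (Set.toFinite _) ⟨I, ⟨Subset.rfl, fun a _ b hb => absurd hb.1 hb.2⟩, by
      have : K ≤ 2 * K + K * B := by nlinarith
      exact this.trans hcon⟩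
  have hsub : A ⊆ A' := by
    rcases hA.nested hA' with h | h
    · exact h
    · have := ncard_le_ncard h; omega
  -- the ends of the interval `S`
  have hx : ∃ x' : P, x ≤ x' ∧ (∀ s ∈ A' \ A, x' < s) ∧ ∀ a ∈ A, ¬ x' < a := by
    rcases A.eq_empty_or_nonempty with h | h
    · exact ⟨x, le_rfl, fun s hs => (hA'.1 hs.1).1, by simp [h]⟩
    · obtain ⟨m, hm⟩ := (Set.toFinite A).exists_maximal h
      refine ⟨m, (hA.1 hm.1).1.le, fun s hs => hA.2 m hm.1 s ⟨hA'.1 hs.1, hs.2⟩, fun a ha hlt => ?_⟩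
      exact absurd (hm.2 ha hlt.le) (not_le_of_gt hlt)
  obtain ⟨x', hx1, hx2, hx3⟩ := hx
  have hz : ∃ z' : P, z' ≤ z ∧ (∀ s ∈ A', s < z') ∧ ∀ a ∈ I \ A', ¬ a < z' := by
    rcases (I \ A').eq_empty_or_nonempty with h | h
    · exact ⟨z, le_rfl, fun s hs => (hA'.1 hs).2, by simp [h]⟩
    · obtain ⟨m, hm⟩ := (Set.toFinite (I \ A')).exists_minimal h
      refine ⟨m, (hm.1.1).2.le, fun s hs => hA'.2 s hs m hm.1, fun a ha hlt => ?_⟩
      exact absurd (hm.2 ha hlt.le) (not_le_of_gt hlt)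
  obtain ⟨z', hz1, hz2, hz3⟩ := hz
  have hS : A' \ A = Ioo x' z' := by
    ext y
    constructor
    · intro hy
      exact ⟨hx2 y hy, hz2 y hy.1⟩
    · rintro ⟨h1, h2⟩
      have hyI : y ∈ I := ⟨lt_of_le_of_lt hx1 h1, lt_of_lt_of_le h2 hz1⟩
      refine ⟨?_, fun h => hx3 y h h1⟩
      by_contra h
      exact hz3 y ⟨hyI, h⟩ h2
  have hnS : ¬ OrdSum (Ioo x' z') := by
    rintro ⟨L, ⟨l, hl⟩, ⟨u, hu⟩, hLU⟩
    set L' : Set P := Subtype.val '' L with hL'
    have hL'S : L' ⊆ A' \ A := by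
      rintro _ ⟨y, _, rfl⟩
      rw [hS]; exact y.2
    have hcut : Cut I (A ∪ L') := by
      refine ⟨union_subset hA.1 (fun y hy => hA'.1 (hL'S hy).1), ?_⟩
      rintro a (ha | ha) b ⟨hbI, hb⟩
      · exact hA.2 a ha b ⟨hbI, fun h => hb (Or.inl h)⟩
      · by_cases hbA : b ∈ A'
        · have hbS : b ∈ Ioo x' z' := by
            rw [← hS]; exact ⟨hbA, fun h => hb (Or.inl h)⟩
          obtain ⟨a', ha', rfl⟩ := ha
          have : (⟨b, hbS⟩ : Ioo x' z') ∉ L := fun h => hb (Or.inr ⟨_, h, rfl⟩)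
          exact hLU a' ha' _ this
        · exact hA'.2 a (hL'S ha).1 b ⟨hbI, hbA⟩
    have hl' : (l : P) ∈ L' := ⟨l, hl, rfl⟩
    have hu' : (u : P) ∉ L' := by
      rintro ⟨y, hy, h⟩
      have : y = u := Subtype.ext h
      exact hu (this ▸ hy)
    have huS : (u : P) ∈ A' \ A := by rw [hS]; exact u.2
    have h1 : A.ncard < (A ∪ L').ncard := by
      refine ncard_lt_ncard ⟨subset_union_left, fun h => (hL'S hl').2 (h (Or.inr hl'))⟩
    have h2 : (A ∪ L').ncard < A'.ncard := by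
      refine ncard_lt_ncard ⟨union_subset hsub (fun y hy => (hL'S hy).1), fun h => ?_⟩
      rcases h huS.1 with h3 | h3
      · exact huS.2 h3
      · exact hu' h3
    rcases lt_or_ge (A ∪ L').ncard K with h3 | h3
    · have := hAmax _ ⟨hcut, h3⟩; omega
    · have := hAmin _ ⟨hcut, h3⟩; omega
  have hSc : (A' \ A).ncard ≤ K * B := by
    apply ncard_le_of_chain hT
    intro C hC hch
    by_contra hcon2
    rw [not_le] at hcon2
    exact hnS (hB x' z' ⟨C, hS ▸ hC, hch, hcon2⟩)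
  have hA'c : A'.ncard < K + K * B := by
    have := ncard_sdiff_add_ncard_of_subset hsub
    omega
  have hU : K ≤ (I \ A').ncard := by
    have := ncard_sdiff_add_ncard_of_subset hA'.1
    omega
  apply hirr
  refine ⟨{y | ∀ b ∈ I \ A', y < b}, ?_, ?_, ?_⟩
  · have : A'.Nonempty := by
      rw [← ncard_pos]; omega
    obtain ⟨a, ha⟩ := this
    exact ⟨a, fun b hb => hA'.2 a ha b hb⟩
  · have : (I \ A').Nonempty := by
      rw [← ncard_pos]; omega
    obtain ⟨b, hb⟩ := this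
    exact ⟨b, fun h => lt_irrefl b (h b hb)⟩
  · intro l hl w hw
    -- `w` is comparable to some element of every set with at least `K` elements
    have hcomp : ∀ T : Set P, K ≤ T.ncard → ∃ t ∈ T, w ≤ t ∨ t ≤ w := by
      intro T hT'
      by_contra h
      push Not at h
      have h1 : T ⊆ {y : P | ¬ w ≤ y ∧ ¬ y ≤ w} := fun t ht => h t ht
      have h2 := ncard_le_ncard h1
      have h3 := hT w
      omega
    obtain ⟨a, ha, hwa⟩ := hcomp A' hAK'
    obtain ⟨b, hb, hwb⟩ := hcomp _ hU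
    have haw : a ≤ w := by
      rcases hwa with h | h
      · exact absurd (fun b hb => lt_of_le_of_lt h (hA'.2 a ha b hb)) hw
      · exact h
    rcases hwb with h | h
    · -- `w ≤ b`: then `w ∈ I`
      have hwI : w ∈ I := ⟨lt_of_lt_of_le (hA'.1 ha).1 haw, lt_of_le_of_lt h hb.1.2⟩
      by_cases hwA : w ∈ A'
      · exact absurd (fun b hb => hA'.2 w hwA b hb) hw
      · exact hl w ⟨hwI, hwA⟩
    · exact lt_of_lt_of_le (hl b hb) h

theorem card_le_of_irreducible {K B : ℕ} (hK : 1 ≤ K) (hT : Thin K P) (hB : SumIntervals B P)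
    (hirr : ¬ OrdSum P) : Nat.card P ≤ K * (2 * K + K * B + 1) := by
  classical
  rw [← Set.ncard_univ]
  apply ncard_le_of_chain hT
  intro C _ hch
  by_contra hcon
  rw [not_le] at hcon
  have hne : C.Nonempty := by
    rw [← ncard_pos]; omega
  obtain ⟨x, hx⟩ := (Set.toFinite C).exists_minimal hne
  obtain ⟨z, hz⟩ := (Set.toFinite C).exists_maximal hne
  have hx' : ∀ c ∈ C, x ≤ c := fun c hc => by
    rcases hch.total hx.1 hc with h | h
    · exact h
    · exact hx.2 hc h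
  have hz' : ∀ c ∈ C, c ≤ z := fun c hc => by
    rcases hch.total hz.1 hc with h | h
    · exact hz.2 hc h
    · exact h
  have hsub : C \ {x, z} ⊆ Ioo x z := by
    rintro c ⟨hc, hc2⟩
    simp only [mem_insert_iff, mem_singleton_iff, not_or] at hc2
    exact ⟨lt_of_le_of_ne (hx' c hc) (Ne.symm hc2.1), lt_of_le_of_ne (hz' c hc) hc2.2⟩
  have h1 : C.ncard ≤ (C \ {x, z}).ncard + ({x, z} : Set P).ncard := by
    refine (ncard_le_ncard (fun c hc => ?_)).trans (ncard_union_le (C \ {x, z}) {x, z})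
    by_cases h : c ∈ ({x, z} : Set P)
    · exact Or.inr h
    · exact Or.inl ⟨hc, h⟩
  have h2 : ({x, z} : Set P).ncard ≤ 2 := ncard_insert_le x {z} |>.trans (by simp)
  have h3 := ncard_le_ncard hsub
  have hne2 : (Ioo x z).Nonempty := by
    rw [← ncard_pos]
    have : 1 ≤ 2 * K := by omega
    omega
  obtain ⟨y, hy⟩ := hne2
  have := interval_small hK hT hB hirr x z (hy.1.trans hy.2)
  omega

end Pool.Agent.U375.DS
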