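import Pool.Agent.U375.DS.Forest
import Pool.Agent.H931R3.Bal14
import Pool.Agent.Y491.ID.Main

/-!
# Balance constants of ordinal sums, finiteness below `1/2 - ε`, and minima for given width
-/

set_option autoImplicit false

namespace Pool.Agent.U375.DS

open Pool.Agent.H13R3.WB Pool.Agent.H931R3.Bal

section

variable {P : Type} [Fintype P] [PartialOrder P]

omit [Fintype P] in
lemma auto_lower {L : Set P} (h : ∀ a ∈ L, ∀ b ∉ L, a < b) : Autonomous L := by
  intro x hx y hy z hz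
  exact ⟨fun h1 => absurd (h x hx z hz) (not_lt_of_ge h1), fun _ => (h y hy z hz).le⟩

omit [Fintype P] in
lemma auto_upper {L : Set P} (h : ∀ a ∈ L, ∀ b ∉ L, a < b) : Autonomous Lᶜ := by
  intro x hx y hy z hz
  have hz' : z ∈ L := not_not.1 hz
  exact ⟨fun _ => (h z hz' y hy).le, fun h1 => absurd (h z hz' x hx) (not_lt_of_ge h1)⟩

lemma prob_autonomous {M : Set P} (hM : Autonomous M) [Fintype M] (x y : M) :
    prob P x y = prob M x y := by
  rw [prob_eq rfl, prob_eq rfl, pr_autonomous hM rfl rfl]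

lemma prob_eq_zero {x y : P} (h : x < y) : prob P y x = 0 := by
  rw [prob_eq rfl]; exact pr_zero_of_lt h

lemma balance_le_max {L : Set P} (h : ∀ a ∈ L, ∀ b ∉ L, a < b) [Fintype L]
    [Fintype (Lᶜ : Set P)] [Nonempty P] :
    balance P ≤ max (balance L) (balance (Lᶜ : Set P)) := by
  have : Nonempty (P × P) := inferInstance
  conv_lhs => unfold balance
  apply ciSup_le
  rintro ⟨x, y⟩
  simp only
  by_cases hx : x ∈ L
  · have hL : Nonempty L := ⟨⟨x, hx⟩⟩
    by_cases hy : y ∈ L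
    · rw [prob_autonomous (auto_lower h) ⟨x, hx⟩ ⟨y, hy⟩,
        prob_autonomous (auto_lower h) ⟨y, hy⟩ ⟨x, hx⟩]
      exact (le_balance _ _).trans (le_max_left _ _)
    · rw [prob_eq_zero (h x hx y hy)]
      exact (min_le_right _ _).trans (balance_nonneg.trans (le_max_left _ _))
  · have hL : Nonempty (Lᶜ : Set P) := ⟨⟨x, hx⟩⟩
    by_cases hy : y ∈ L
    · rw [prob_eq_zero (h y hy x hx)]
      exact (min_le_left _ _).trans (balance_nonneg.trans (le_max_right _ _))
    · rw [prob_autonomous (auto_upper h) ⟨x, hx⟩ ⟨y, hy⟩,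
        prob_autonomous (auto_upper h) ⟨y, hy⟩ ⟨x, hx⟩]
      exact (le_balance _ _).trans (le_max_right _ _)

omit [Fintype P] in
lemma width_mono {S : Set P} {w : ℕ} (h : HasWidth P w) (s : Finset S)
    (hs : IsAntichain (· ≤ ·) (s : Set S)) : s.card ≤ w := by
  classical
  rw [← Finset.card_map (Function.Embedding.subtype (· ∈ S))]
  apply h.2
  intro a ha b hb hab hle
  simp only [Finset.coe_map, Set.mem_image, Finset.mem_coe] at ha hb
  obtain ⟨a', ha', rfl⟩ := ha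
  obtain ⟨b', hb', rfl⟩ := hb
  exact hs ha' hb' (fun h => hab (by rw [h])) hle

omit [Fintype P] in
lemma width_of_sub {S : Set P} {w : ℕ} (h : HasWidth P w) (s : Finset P)
    (hs : IsAntichain (· ≤ ·) (s : Set P)) (hc : s.card = w) (hsS : ∀ x ∈ s, x ∈ S) :
    HasWidth S w := by
  classical
  refine ⟨⟨s.subtype (· ∈ S), ?_, ?_⟩, width_mono h⟩
  · intro a ha b hb hab hle
    simp only [Finset.mem_coe, Finset.mem_subtype] at ha hb
    exact hs ha hb (fun h => hab (Subtype.ext h)) hle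
  · rw [Finset.card_subtype, Finset.filter_true_of_mem hsS, hc]

omit [Fintype P] in
lemma width_summand {L : Set P} (h : ∀ a ∈ L, ∀ b ∉ L, a < b) {w : ℕ} (hw : HasWidth P w) :
    HasWidth L w ∨ HasWidth (Lᶜ : Set P) w := by
  obtain ⟨s, hs, hc⟩ := hw.1
  by_cases h1 : ∀ x ∈ s, x ∈ L
  · exact Or.inl (width_of_sub hw s hs hc h1)
  · right
    push Not at h1
    obtain ⟨y, hy, hyL⟩ := h1
    apply width_of_sub hw s hs hc
    intro x hx hxL
    have := h x hxL y hyL
    exact hs hx hy this.ne this.le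

end

/-- a class of posets which is inherited by the ordinal summands -/
def Inherited (𝒢 : (P : Type) → [PartialOrder P] → Prop) : Prop :=
  ∀ (P : Type) [Finite P] [PartialOrder P] (L : Set P), (∀ a ∈ L, ∀ b ∉ L, a < b) → 𝒢 P →
    𝒢 L ∧ 𝒢 (Lᶜ : Set P)

lemma Inherited.summand {𝒢 : (P : Type) → [PartialOrder P] → Prop} (hG : Inherited 𝒢) (n : ℕ) :
    ∀ (P : Type) [Fintype P] [PartialOrder P] [Nonempty P], Fintype.card P = n → 𝒢 P →
      ∃ (Q : Type) (_ : Fintype Q) (_ : PartialOrder Q), Nonempty Q ∧ 𝒢 Q ∧ ¬ OrdSum Q ∧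
        balance Q = balance P := by
  classical
  induction n using Nat.strong_induction_on with
  | _ n ih =>
    intro P _ _ _ hn hP
    by_cases hI : OrdSum P
    · obtain ⟨L, hL, hL', h⟩ := hI
      have n1 : Nonempty L := hL.to_subtype
      have n2 : Nonempty (Lᶜ : Set P) := hL'.to_subtype
      have c1 : Fintype.card L < n := by
        rw [← hn]
        obtain ⟨y, hy⟩ := hL'
        exact Fintype.card_subtype_lt (x := y) hy
      have c2 : Fintype.card (Lᶜ : Set P) < n := by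
        rw [← hn]
        obtain ⟨y, hy⟩ := hL
        exact Fintype.card_subtype_lt (x := y) (fun h => h hy)
      have g := hG P L h hP
      have b1 : balance L ≤ balance P := balance_autonomous (auto_lower h)
      have b2 : balance (Lᶜ : Set P) ≤ balance P := balance_autonomous (auto_upper h)
      have b3 := balance_le_max h
      rcases le_total (balance L) (balance (Lᶜ : Set P)) with h1 | h1
      · rw [max_eq_right h1] at b3
        obtain ⟨Q, i1, i2, q1, q2, q3, q4⟩ := ih _ c2 (Lᶜ : Set P) rfl g.2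
        exact ⟨Q, i1, i2, q1, q2, q3, q4.trans (le_antisymm b2 b3)⟩
      · rw [max_eq_left h1] at b3
        obtain ⟨Q, i1, i2, q1, q2, q3, q4⟩ := ih _ c1 L rfl g.1
        exact ⟨Q, i1, i2, q1, q2, q3, q4.trans (le_antisymm b1 b3)⟩
    · exact ⟨P, inferInstance, inferInstance, inferInstance, hP, hI, rfl⟩

lemma Inherited.width_summand {𝒢 : (P : Type) → [PartialOrder P] → Prop} (hG : Inherited 𝒢)
    (n : ℕ) {w : ℕ} : ∀ (P : Type) [Fintype P] [PartialOrder P] [Nonempty P],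
      Fintype.card P = n → 𝒢 P → HasWidth P w →
      ∃ (Q : Type) (_ : Fintype Q) (_ : PartialOrder Q), Nonempty Q ∧ 𝒢 Q ∧ ¬ OrdSum Q ∧
        HasWidth Q w ∧ balance Q ≤ balance P := by
  classical
  induction n using Nat.strong_induction_on with
  | _ n ih =>
    intro P _ _ _ hn hP hw
    by_cases hI : OrdSum P
    · obtain ⟨L, hL, hL', h⟩ := hI
      have n1 : Nonempty L := hL.to_subtype
      have n2 : Nonempty (Lᶜ : Set P) := hL'.to_subtype
      have c1 : Fintype.card L < n := by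
        rw [← hn]
        obtain ⟨y, hy⟩ := hL'
        exact Fintype.card_subtype_lt (x := y) hy
      have c2 : Fintype.card (Lᶜ : Set P) < n := by
        rw [← hn]
        obtain ⟨y, hy⟩ := hL
        exact Fintype.card_subtype_lt (x := y) (fun h => h hy)
      have g := hG P L h hP
      have b1 : balance L ≤ balance P := balance_autonomous (auto_lower h)
      have b2 : balance (Lᶜ : Set P) ≤ balance P := balance_autonomous (auto_upper h)
      rcases DS.width_summand h hw with h1 | h1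
      · obtain ⟨Q, i1, i2, q1, q2, q3, q4, q5⟩ := ih _ c1 L rfl g.1 h1
        exact ⟨Q, i1, i2, q1, q2, q3, q4, q5.trans b1⟩
      · obtain ⟨Q, i1, i2, q1, q2, q3, q4, q5⟩ := ih _ c2 (Lᶜ : Set P) rfl g.2 h1
        exact ⟨Q, i1, i2, q1, q2, q3, q4, q5.trans b2⟩
    · exact ⟨P, inferInstance, inferInstance, inferInstance, hP, hI, hw, le_rfl⟩

lemma finite_orders (n : ℕ) : Finite (PartialOrder (Fin n)) := by
  refine Finite.of_injective (β := Fin n → Fin n → Prop) (fun o => o.le) ?_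
  intro o o' h
  exact PartialOrder.ext (fun x y => by
    have := congrFun (congrFun h x) y
    exact iff_of_eq this)

lemma balance_transport {P R : Type} [Fintype P] [PartialOrder P] [Nonempty P] [Fintype R]
    (e : P ≃ R) : ∃ o : PartialOrder R, @balance R _ o = balance P := by
  let o : PartialOrder R := PartialOrder.lift e.symm e.symm.injective
  have : Nonempty R := ⟨e (Classical.arbitrary P)⟩
  let f : P ≃o R :=
    { toEquiv := e
      map_rel_iff' := by
        intro a b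
        show e.symm (e a) ≤ e.symm (e b) ↔ a ≤ b
        rw [e.symm_apply_apply, e.symm_apply_apply] }
  exact ⟨o, le_antisymm (balance_iso f.symm) (balance_iso f)⟩

/-- finitely many values for posets of bounded size -/
lemma finite_values (N : ℕ) : {d : ℝ | ∃ (P : Type) (_ : Fintype P) (_ : PartialOrder P),
    Fintype.card P ≤ N ∧ balance P = d}.Finite := by
  have h0 : (⋃ n ∈ Finset.range (N + 1), Set.range
      (fun o : PartialOrder (Fin n) => @balance (Fin n) _ o)).Finite := by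
    apply Set.Finite.biUnion (Finset.finite_toSet _)
    intro n _
    have := finite_orders n
    exact Set.finite_range _
  refine (h0.union (Set.finite_singleton (0 : ℝ))).subset ?_
  rintro d ⟨P, i1, i2, hN, rfl⟩
  rcases isEmpty_or_nonempty P with hP | hP
  · right
    unfold balance
    have : IsEmpty (P × P) := inferInstance
    exact Real.iSup_of_isEmpty _
  · left
    simp only [Set.mem_iUnion]
    refine ⟨Fintype.card P, Finset.mem_coe.2 (Finset.mem_range.2 (by omega)), ?_⟩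
    obtain ⟨o, ho⟩ := balance_transport (Fintype.equivFin P)
    exact ⟨o, ho⟩

/-- the bound -/
noncomputable def bnd (C ε : ℝ) : ℝ := Real.exp (C * Real.log (2 / ε) ^ 3 / ε ^ 4)

theorem irreducible_balance : ∃ C : ℝ, 0 < C ∧ ∀ (B : ℕ) (ε : ℝ), 0 < ε → ε ≤ 1 / 2 →
    ∀ (P : Type) [Fintype P] [PartialOrder P], SumIntervals B P → ¬ OrdSum P →
      (B + 1) * bnd C ε ≤ Fintype.card P → 1 / 2 - ε ≤ balance P := by
  obtain ⟨C, hC, h⟩ := Pool.Agent.Y491.ID.incomparable_balance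
  refine ⟨2 * C + 1, by positivity, fun B ε hε hε2 P _ _ hP hI hcard => ?_⟩
  by_contra hcon
  rw [not_le] at hcon
  set t : ℝ := Real.log (2 / ε) ^ 3 / ε ^ 4 with ht
  set E : ℝ := Real.exp (C * Real.log (2 / ε) ^ 3 / ε ^ 4) with hE
  have hE' : E = Real.exp (C * t) := by rw [hE, ht, mul_div_assoc]
  have hlog : 1 ≤ Real.log (2 / ε) := by
    rw [Real.le_log_iff_exp_le (by positivity)]
    have h1 : (4 : ℝ) ≤ 2 / ε := by
      rw [le_div_iff₀ hε]; linarith
    linarith [Real.exp_one_lt_d9]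
  have ht16 : 16 ≤ t := by
    rw [ht, le_div_iff₀ (by positivity)]
    have h1 : ε ^ 4 ≤ (1 / 2) ^ 4 := by gcongr
    have h2 : (1 : ℝ) ≤ Real.log (2 / ε) ^ 3 := one_le_pow₀ hlog
    norm_num at h1
    linarith
  have hE1 : 1 ≤ E := by
    rw [hE']; exact Real.one_le_exp (by positivity)
  have hthin : Thin ⌈E⌉₊ P := by
    intro x
    have h1 : ¬ E ≤ Nat.card {y : P // ¬ x ≤ y ∧ ¬ y ≤ x} := fun h2 =>
      absurd (h ε hε hε2 P x h2) (not_le.2 hcon)
    rw [not_le] at h1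
    have h2 : {y : P | ¬ x ≤ y ∧ ¬ y ≤ x}.ncard = Nat.card {y : P // ¬ x ≤ y ∧ ¬ y ≤ x} := by
      rw [← Nat.card_coe_set_eq]; rfl
    rw [h2]
    have h3 : ((Nat.card {y : P // ¬ x ≤ y ∧ ¬ y ≤ x} : ℕ) : ℝ) < (⌈E⌉₊ : ℕ) :=
      lt_of_lt_of_le h1 (Nat.le_ceil E)
    exact_mod_cast h3
  have hK : 1 ≤ ⌈E⌉₊ := Nat.one_le_ceil_iff.2 (by linarith)
  have h4 := card_le_of_irreducible hK hthin hP hI
  have h5 : ((⌈E⌉₊ : ℕ) : ℝ) ≤ 2 * E := by
    have := (Nat.ceil_lt_add_one (show (0 : ℝ) ≤ E by linarith)).le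
    linarith
  have hK' : (1 : ℝ) ≤ (⌈E⌉₊ : ℕ) := by exact_mod_cast hK
  have h6 : (Fintype.card P : ℝ) ≤ (⌈E⌉₊ : ℝ) * (2 * ⌈E⌉₊ + ⌈E⌉₊ * B + 1) := by
    rw [Nat.card_eq_fintype_card] at h4
    exact_mod_cast h4
  have h7 : (⌈E⌉₊ : ℝ) * (2 * ⌈E⌉₊ + ⌈E⌉₊ * B + 1) ≤ 12 * (B + 1) * E ^ 2 := by
    have hB : (0 : ℝ) ≤ B := Nat.cast_nonneg B
    calc (⌈E⌉₊ : ℝ) * (2 * ⌈E⌉₊ + ⌈E⌉₊ * B + 1)
        ≤ (⌈E⌉₊ : ℝ) * (2 * ⌈E⌉₊ + ⌈E⌉₊ * B + ⌈E⌉₊) := by gcongr
      _ = (⌈E⌉₊ : ℝ) ^ 2 * (B + 3) := by ring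
      _ ≤ (2 * E) ^ 2 * (3 * (B + 1)) := by
          gcongr
          linarith
      _ = 12 * (B + 1) * E ^ 2 := by ring
  have h8 : bnd (2 * C + 1) ε = E ^ 2 * Real.exp t := by
    unfold bnd
    rw [hE', ← Real.exp_nat_mul, ← Real.exp_add]
    congr 1
    push_cast
    rw [ht]
    ring
  have h9 : (17 : ℝ) ≤ Real.exp t := by
    have := Real.add_one_le_exp t
    linarith
  rw [h8] at hcard
  have hB : (0 : ℝ) < B + 1 := by positivity
  have h10 : (B + 1 : ℝ) * (E ^ 2 * Real.exp t) ≥ (B + 1) * (E ^ 2 * 17) := by gcongr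
  have h11 : (0 : ℝ) < (B + 1) * E ^ 2 := by positivity
  nlinarith

/-- finitely many balance constants below `1/2 - ε` -/
theorem finite_below {C ε : ℝ} {B : ℕ} {𝒢 : (P : Type) → [PartialOrder P] → Prop}
    (hG : Inherited 𝒢)
    (hC : ∀ (P : Type) [Fintype P] [PartialOrder P], 𝒢 P → ¬ OrdSum P →
      (B + 1) * bnd C ε ≤ Fintype.card P → 1 / 2 - ε ≤ balance P) :
    {d : ℝ | d < 1 / 2 - ε ∧ ∃ (P : Type) (_ : Fintype P) (_ : PartialOrder P),
      𝒢 P ∧ balance P = d}.Finite := by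
  refine (finite_values ⌈(B + 1) * bnd C ε⌉₊).subset ?_
  rintro d ⟨hd, P, i1, i2, hP, rfl⟩
  rcases isEmpty_or_nonempty P with hPe | hPe
  · exact ⟨P, i1, i2, by rw [Fintype.card_eq_zero]; omega, rfl⟩
  · obtain ⟨Q, j1, j2, q1, q2, q3, q4⟩ := hG.summand _ P rfl hP
    refine ⟨Q, j1, j2, ?_, q4⟩
    by_contra hcon
    rw [not_le] at hcon
    have h1 : (B + 1) * bnd C ε ≤ Fintype.card Q :=
      (Nat.le_ceil _).trans (by exact_mod_cast hcon.le)
    have := hC Q q2 q3 h1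
    linarith

/-- the minimum over the members of width `w` -/
theorem exists_min {C ε : ℝ} {B : ℕ} {𝒢 : (P : Type) → [PartialOrder P] → Prop}
    (hG : Inherited 𝒢)
    (hC : ∀ (P : Type) [Fintype P] [PartialOrder P], 𝒢 P → ¬ OrdSum P →
      (B + 1) * bnd C ε ≤ Fintype.card P → 1 / 2 - ε ≤ balance P) {w : ℕ} (hw : 1 ≤ w)
    (hex : ∃ (P : Type) (_ : Fintype P) (_ : PartialOrder P), 𝒢 P ∧ HasWidth P w ∧
      balance P < 1 / 2 - ε) :
    ∃ (P : Type) (_ : Fintype P) (_ : PartialOrder P), 𝒢 P ∧ HasWidth P w ∧ ¬ OrdSum P ∧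
      Fintype.card P < (B + 1) * bnd C ε ∧ balance P < 1 / 2 - ε ∧
      ∀ (Q : Type) [Fintype Q] [PartialOrder Q], 𝒢 Q → HasWidth Q w → balance P ≤ balance Q := by
  classical
  have hne : ∀ (P : Type) [PartialOrder P], HasWidth P w → Nonempty P := by
    intro P _ h
    obtain ⟨s, _, hs⟩ := h.1
    obtain ⟨x, _⟩ := Finset.card_pos.1 (show 0 < s.card by omega)
    exact ⟨x⟩
  set D : Set ℝ := {d : ℝ | ∃ (P : Type) (_ : Fintype P) (_ : PartialOrder P), 𝒢 P ∧
    HasWidth P w ∧ ¬ OrdSum P ∧ Fintype.card P < (B + 1) * bnd C ε ∧ balance P = d} with hD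
  have hfin : D.Finite := by
    refine (finite_values ⌈(B + 1) * bnd C ε⌉₊).subset ?_
    rintro d ⟨P, i1, i2, _, _, _, h4, rfl⟩
    refine ⟨P, i1, i2, ?_, rfl⟩
    have : (Fintype.card P : ℝ) ≤ (⌈(B + 1) * bnd C ε⌉₊ : ℕ) := h4.le.trans (Nat.le_ceil _)
    exact_mod_cast this
  have key : ∀ (Q : Type) [Fintype Q] [PartialOrder Q], 𝒢 Q → HasWidth Q w →
      balance Q < 1 / 2 - ε → ∃ d ∈ D, d ≤ balance Q := by
    intro Q _ _ hQ hQw hQb
    have := hne Q hQw
    obtain ⟨R, i1, i2, r1, r2, r3, r4, r5⟩ := hG.width_summand _ Q rfl hQ hQw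
    refine ⟨balance R, ⟨R, i1, i2, r2, r4, r3, ?_, rfl⟩, r5⟩
    by_contra hcon
    rw [not_lt] at hcon
    have := hC R r2 r3 hcon
    linarith
  obtain ⟨P0, i1, i2, p1, p2, p3⟩ := hex
  obtain ⟨d0, hd0, hd0'⟩ := key P0 p1 p2 p3
  obtain ⟨d, hd, hmin⟩ := Set.exists_min_image D id hfin ⟨d0, hd0⟩
  obtain ⟨P, j1, j2, h1, h2, h3, h4, h5⟩ := hd
  have hdlt : d < 1 / 2 - ε := lt_of_le_of_lt ((hmin d0 hd0).trans hd0') p3
  refine ⟨P, j1, j2, h1, h2, h3, h4, h5 ▸ hdlt, fun Q _ _ hQ hQw => ?_⟩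
  rw [h5]
  by_cases hQb : balance Q < 1 / 2 - ε
  · obtain ⟨d1, hd1, hd1'⟩ := key Q hQ hQw hQb
    exact (hmin d1 hd1).trans hd1'
  · exact hdlt.le.trans (not_lt.1 hQb)

end Pool.Agent.U375.DS
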